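import Pool.Agent.LibX1.Rows

/-!
Poincaré duality for the complex of a strictly semistable special fibre: if `N ^ s` is injective in
all degrees, it is bijective.
-/

set_option autoImplicit false

namespace Pool.Agent.LibHL10

open Pool.Agent.WM85 Pool.Agent.LibX1 Finset Module

variable {q : ℕ} {K H : Type} [Field K] [AddCommGroup H] [Module K H]

/-- Poincaré duality for the strata: `I x y` pairs `gr k j` with `gr k j'`, `j + j' = 2 (n - k)`,
`gamma` is the transpose of `rho`. -/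
structure Dual (Y : Strata q K H) (n : ℕ) (I : H →ₗ[K] H →ₗ[K] K) : Prop where
  type : ∀ k j k' j', ∀ x ∈ Y.gr k j, ∀ y ∈ Y.gr k' j', I x y ≠ 0 →
    k = k' ∧ j + j' + 2 * k = 2 * n
  gamma : ∀ x y, I (Y.gamma x) y = I x (Y.rho y)
  rho : ∀ x y, I (Y.rho x) y = I x (Y.gamma y)
  left : ∀ x, (∀ y, I x y = 0) → x = 0
  right : ∀ y, (∀ x, I x y = 0) → y = 0

variable {Y : Strata q K H} {n : ℕ} {I : H →ₗ[K] H →ₗ[K] K}

theorem Dual.flip (h : Dual Y n I) : Dual Y n I.flip where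
  type := by
    intro k j k' j' x hx y hy hne
    obtain ⟨h1, h2⟩ := h.type k' j' k j y hy x hx hne
    subst h1
    exact ⟨rfl, by omega⟩
  gamma := fun x y => (h.rho y x).symm
  rho := fun x y => (h.gamma y x).symm
  left := fun x hx => h.right x hx
  right := fun y hy => h.left y hy

theorem sum_gr (Y : Strata q K H) {S : Submodule K H} (h : ∀ k j, Y.gr k j ≤ S) (x : H) :
    x ∈ S := by
  have h1 := Y.internal.submodule_iSup_eq_top
  have h2 : (⨆ p : ℕ × ℕ, Y.gr p.1 p.2) ≤ S := iSup_le fun p => h p.1 p.2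
  rw [h1] at h2
  exact h2 trivial

theorem Dual.exists_y (h : Dual Y n I) {k j : ℕ} {x : H} (hx : x ∈ Y.gr k j) (h0 : x ≠ 0) :
    ∃ j', j + j' + 2 * k = 2 * n ∧ ∃ y ∈ Y.gr k j', I x y ≠ 0 := by
  by_contra hcon
  push Not at hcon
  apply h0
  apply h.left
  intro y
  have h1 : ∀ k' j', Y.gr k' j' ≤ LinearMap.ker (I x) := by
    intro k' j' y hy
    rw [LinearMap.mem_ker]
    by_contra hne
    obtain ⟨h2, h3⟩ := h.type k j k' j' x hx y hy hne
    subst h2
    exact hne (hcon j' h3 y hy)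
  exact sum_gr Y h1 y

theorem Dual.gr_eq_bot (h : Dual Y n I) {k j : ℕ} (hk : 2 * n < j + 2 * k) : Y.gr k j = ⊥ := by
  rw [eq_bot_iff]
  intro x hx
  rw [Submodule.mem_bot]
  by_contra h0
  obtain ⟨j', h1, -⟩ := h.exists_y hx h0
  omega

theorem Dual.wt_eq_bot (h : Dual Y n I) {m : ℕ} (hm : 2 * n < m) (r : ℤ) : Y.wt m r = ⊥ := by
  rw [eq_bot_iff]
  apply Y.wt_le
  rintro i k j h1 h2 h3 _ ⟨x, hx, rfl⟩
  rw [SetLike.mem_coe, h.gr_eq_bot (by omega), Submodule.mem_bot] at hx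
  rw [hx, map_zero]
  exact Submodule.zero_mem _

theorem wt_low {m : ℕ} {r : ℤ} {f : ℕ → H} (hf : f ∈ Y.wt m r) {i : ℕ} (hi : (i : ℤ) < r) :
    f i = 0 := by
  rcases Y.wt_apply hf i with h | ⟨k, j, h1, h2, h3, -⟩
  · exact h
  · omega

theorem tot_high {m : ℕ} {f : ℕ → H} (hf : f ∈ Y.tot m) {i : ℕ} (hi : m < i) : f i = 0 := by
  have := Y.mem_tot.mp hf i
  rwa [Y.level_eq_bot hi, Submodule.mem_bot] at this

/-- The pairing of cochains. -/
def pair (I : H →ₗ[K] H →ₗ[K] K) (L a b : ℕ) : (ℕ → H) →ₗ[K] (ℕ → H) →ₗ[K] K :=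
  ∑ l ∈ range L, I.compl₁₂ (LinearMap.proj (l + a)) (LinearMap.proj (l + b))

theorem pair_apply (L a b : ℕ) (f g : ℕ → H) :
    pair I L a b f g = ∑ l ∈ range L, I (f (l + a)) (g (l + b)) := by
  rw [pair, LinearMap.sum_apply, LinearMap.sum_apply]
  rfl

theorem pair_flip (L a b : ℕ) (f g : ℕ → H) : pair I.flip L b a g f = pair I L a b f g := by
  rw [pair_apply, pair_apply]
  rfl

/-- `d` is its own transpose. -/
theorem Dual.adj (h : Dual Y n I) {L s : ℕ} {y u : ℕ → H} (h0 : u s = 0) (hL : y L = 0) :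
    pair I L 0 s y (Y.d u) = pair I L 0 (s + 1) (Y.d y) u := by
  rw [pair_apply, pair_apply]
  have h1 : ∀ l, I (y (l + 0)) (Y.d u (l + s)) =
      I (y l) (Y.rho (u (l + s))) + I (y l) (Y.gamma (u (l + (s + 1)))) := by
    intro l
    rw [add_zero, Y.d_apply, map_add, add_assoc]
  have h2 : ∀ l, I (Y.d y (l + 0)) (u (l + (s + 1))) =
      I (y l) (Y.gamma (u (l + (s + 1)))) + I (y (l + 1)) (Y.rho (u (l + 1 + s))) := by
    intro l
    rw [add_zero, Y.d_apply, map_add, LinearMap.add_apply, h.rho, h.gamma]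
    congr 3
    rw [show l + (s + 1) = l + 1 + s by ring]
  rw [sum_congr rfl fun l _ => h1 l, sum_congr rfl fun l _ => h2 l, sum_add_distrib,
    sum_add_distrib, add_comm]
  congr 1
  have h3 := sum_range_succ' (fun l => I (y l) (Y.rho (u (l + s)))) L
  rw [sum_range_succ, hL, map_zero, LinearMap.zero_apply, add_zero, zero_add, h0, map_zero,
    map_zero, add_zero] at h3
  exact h3

theorem Dual.adj' (h : Dual Y n I) {L s : ℕ} {x u : ℕ → H} (h0 : x s = 0) (hL : u L = 0) :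
    pair I L (s + 1) 0 x (Y.d u) = pair I L s 0 (Y.d x) u := by
  have h1 := h.flip.adj (L := L) (s := s) (y := u) (u := x) h0 hL
  rw [pair_flip, pair_flip] at h1
  exact h1.symm

theorem pair_shift (L s : ℕ) (f g : ℕ → H) :
    pair I L 0 s (((Strata.shift K H) ^ s) f) g = pair I L s 0 f (((Strata.shift K H) ^ s) g) := by
  rw [pair_apply, pair_apply]
  apply sum_congr rfl
  intro l _
  rw [Strata.shift_pow_apply, Strata.shift_pow_apply, add_zero]

/-- The pairing is nondegenerate. -/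
theorem Dual.nondeg (h : Dual Y n I) {L a b m m' : ℕ} (hab : a = 0 ∨ b = 0) (hm : m + m' = 2 * n)
    (hL : 2 * n < L) {f : ℕ → H} (hf : f ∈ Y.wt m (a - b))
    (h0 : ∀ g ∈ Y.wt m' (b - a), pair I L a b f g = 0) : f = 0 := by
  funext i
  by_contra hne
  rcases Y.wt_apply hf i with h1 | ⟨k, j, h1, h2, h3, h4⟩
  · exact hne h1
  · obtain ⟨j', h5, y, hy, hxy⟩ := h.exists_y h4 hne
    obtain ⟨l, rfl⟩ : ∃ l, i = l + a := ⟨i - a, by omega⟩
    have h6 : Strata.sg K (l + b) y ∈ Y.wt m' (b - a) :=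
      Y.cell_le_wt (i := l + b) (k := k) (j := j') (by omega) (by omega)
        (by push_cast at h3 ⊢; omega) ⟨y, hy, rfl⟩
    have h7 := h0 _ h6
    rw [pair_apply, sum_eq_single l] at h7
    · rw [Strata.sg_same] at h7
      exact hxy h7
    · intro l' _ hl
      rw [Strata.sg_ne (by omega), map_zero]
    · intro hl
      exact absurd (mem_range.mpr (by omega)) hl

theorem Dual.nondeg' (h : Dual Y n I) {L a b m m' : ℕ} (hab : a = 0 ∨ b = 0) (hm : m + m' = 2 * n)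
    (hL : 2 * n < L) {g : ℕ → H} (hg : g ∈ Y.wt m' (b - a))
    (h0 : ∀ f ∈ Y.wt m (a - b), pair I L a b f g = 0) : g = 0 := by
  apply h.flip.nondeg (L := L) (a := b) (b := a) (m := m') (m' := m) hab.symm (by omega) hL hg
  intro f hf
  rw [pair_flip]
  exact h0 f hf

instance instFiniteWt [FiniteDimensional K H] (m : ℕ) (r : ℤ) :
    FiniteDimensional K (Y.wt m r) :=
  Submodule.finiteDimensional_of_le (Y.wt_le_tot m r)

/-- The pairing is perfect. -/
theorem Dual.perfect [FiniteDimensional K H] (h : Dual Y n I) {L a b m m' : ℕ}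
    (hab : a = 0 ∨ b = 0) (hm : m + m' = 2 * n) (hL : 2 * n < L)
    (φ : Y.wt m (a - b) →ₗ[K] K) :
    ∃ g ∈ Y.wt m' (b - a), ∀ f : Y.wt m (a - b), φ f = pair I L a b f g := by
  let p : Y.wt m (a - b) →ₗ[K] Y.wt m' (b - a) →ₗ[K] K :=
    (pair I L a b).compl₁₂ (Y.wt m (a - b)).subtype (Y.wt m' (b - a)).subtype
  have h1 : Function.Injective p := by
    rw [injective_iff_map_eq_zero]
    intro f hf
    apply Subtype.ext
    apply h.nondeg hab hm hL f.2
    intro g hg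
    exact LinearMap.congr_fun hf ⟨g, hg⟩
  have h2 : Function.Injective p.flip := by
    rw [injective_iff_map_eq_zero]
    intro g hg
    apply Subtype.ext
    apply h.nondeg' hab hm hL g.2
    intro f hf
    exact LinearMap.congr_fun hg ⟨f, hf⟩
  have h3 : p.IsPerfPair := LinearMap.IsPerfPair.of_injective h1 h2
  obtain ⟨g, hg⟩ := h3.bijective_right.2 φ
  refine ⟨g, g.2, fun f => ?_⟩
  rw [← hg]
  rfl

/-- Injectivity of `N ^ s` in degree `m'` gives surjectivity in degree `m = 2 n - m'`. -/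
theorem Dual.surj [CharZero K] [FiniteDimensional K H] (h : Dual Y n I) (hq : 1 < q)
    {m m' s : ℕ} (hm : m + m' = 2 * n) (hs : 1 ≤ s)
    (hinj : ∀ g ∈ Y.wt m' s, g ∈ Y.Z m' → ((Strata.shift K H) ^ s) g ∈ Y.B m' → g ∈ Y.B m')
    {y : ℕ → H} (hy : y ∈ Y.wt m (-s)) (hyZ : y ∈ Y.Z m) :
    ∃ x ∈ Y.wt m s ⊓ Y.Z m, y - ((Strata.shift K H) ^ s) x ∈ Y.B m := by
  classical
  set L := 2 * n + 2 with hL
  obtain ⟨t, rfl⟩ : ∃ t, s = t + 1 := ⟨s - 1, by omega⟩
  -- casts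
  have e1 : ((t + 1 : ℕ) : ℤ) - ((0 : ℕ) : ℤ) = ((t + 1 : ℕ) : ℤ) := by push_cast; ring
  have e2 : ((0 : ℕ) : ℤ) - ((t + 1 : ℕ) : ℤ) = -((t + 1 : ℕ) : ℤ) := by push_cast; ring
  have e3 : ((t : ℕ) : ℤ) - ((0 : ℕ) : ℤ) = ((t + 1 : ℕ) : ℤ) - 1 := by push_cast; ring
  have e4 : ((0 : ℕ) : ℤ) - ((t : ℕ) : ℤ) = -((t + 1 : ℕ) : ℤ) + 1 := by push_cast; ring
  by_contra hcon
  push Not at hcon
  let S : Submodule K (ℕ → H) :=
    (Y.wt m (t + 1 : ℕ) ⊓ Y.Z m).map ((Strata.shift K H) ^ (t + 1)) ⊔ Y.B m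
  have hyS : y ∉ S := by
    intro hyS
    obtain ⟨_, ⟨x, hx, rfl⟩, b, hb, hxb⟩ := Submodule.mem_sup.mp hyS
    refine hcon x hx ?_
    rw [← hxb, add_sub_cancel_left]
    exact hb
  obtain ⟨φ, hφy, hφS⟩ := Submodule.exists_dual_map_eq_bot_of_notMem hyS inferInstance
  have hφ0 : ∀ x ∈ S, φ x = 0 := by
    intro x hx
    have : φ x ∈ S.map φ := ⟨x, hx, rfl⟩
    rwa [hφS, Submodule.mem_bot] at this
  -- `φ` is given by `g`
  obtain ⟨g, hg, hgφ⟩ : ∃ g ∈ Y.wt m' (t + 1 : ℕ), ∀ f ∈ Y.wt m (-(t + 1 : ℕ)),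
      φ f = pair I L 0 (t + 1) f g := by
    obtain ⟨g, hg, h1⟩ := h.perfect (L := L) (a := 0) (b := t + 1) (m := m) (m' := m')
      (Or.inl rfl) hm (by omega) (φ ∘ₗ (Y.wt m _).subtype)
    rw [e1] at hg
    refine ⟨g, hg, fun f hf => ?_⟩
    rw [← e2] at hf
    exact h1 ⟨f, hf⟩
  -- `g` is a cocycle
  have hdg : Y.d g = 0 := by
    have h1 := Y.d_wt m' _ hg
    rcases m with _ | m₁
    · rw [h.wt_eq_bot (by omega), Submodule.mem_comap, Submodule.mem_bot] at h1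
      exact h1
    · have h2 : Y.d g ∈ Y.wt (m' + 1) ((t : ℕ) - (0 : ℕ)) := by
        rw [e3]
        exact h1
      apply h.nondeg' (L := L) (a := 0) (b := t) (m := m₁) (m' := m' + 1) (Or.inl rfl) (by omega)
        (by omega) h2
      intro z hz
      rw [e4] at hz
      have h3 := Y.d_wt m₁ _ hz
      rw [add_sub_cancel_right] at h3
      rw [h.adj (wt_low hg (by push_cast; omega))
        (tot_high (Y.wt_le_tot _ _ hz) (by omega)), ← hgφ _ h3]
      apply hφ0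
      apply Submodule.mem_sup_right
      rw [Y.B_succ]
      exact ⟨z, Y.wt_le_tot _ _ hz, rfl⟩
  have hgZ : g ∈ Y.Z m' := ⟨Y.wt_le_tot _ _ hg, LinearMap.mem_ker.mpr hdg⟩
  -- `N ^ s g` is orthogonal to the cocycles
  set g' := ((Strata.shift K H) ^ (t + 1)) g with hg'
  have hg'w : g' ∈ Y.wt m' (-(t + 1 : ℕ)) := by
    have := pow_mem_grade (W := Y.wt m') (N := Strata.shift K H)
      (fun r x hx => Y.shift_wt m' r hx) (t + 1) (t + 1 : ℕ) g hg
    rwa [show ((t + 1 : ℕ) : ℤ) - 2 * (t + 1 : ℕ) = -(t + 1 : ℕ) by ring] at this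
  have h1 : ∀ x ∈ Y.wt m (t + 1 : ℕ), Y.d x = 0 → pair I L (t + 1) 0 x g' = 0 := by
    intro x hx hdx
    rw [hg', ← pair_shift]
    have h2 : ((Strata.shift K H) ^ (t + 1)) x ∈ Y.wt m (-(t + 1 : ℕ)) := by
      have := pow_mem_grade (W := Y.wt m) (N := Strata.shift K H)
        (fun r x hx => Y.shift_wt m r hx) (t + 1) (t + 1 : ℕ) x hx
      rwa [show ((t + 1 : ℕ) : ℤ) - 2 * (t + 1 : ℕ) = -(t + 1 : ℕ) by ring] at this
    rw [← hgφ _ h2]
    exact hφ0 _ (Submodule.mem_sup_left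
      ⟨x, ⟨hx, Y.wt_le_tot _ _ hx, LinearMap.mem_ker.mpr hdx⟩, rfl⟩)
  have hg'B : g' ∈ Y.B m' := by
    have hg'w' : g' ∈ Y.wt m' ((0 : ℕ) - (t + 1 : ℕ)) := by rw [e2]; exact hg'w
    rcases m' with _ | m₁
    · -- all `x` are cocycles
      have h3 : g' = 0 := by
        apply h.nondeg' (L := L) (a := t + 1) (b := 0) (m := m) (m' := 0) (Or.inr rfl) hm
          (by omega) hg'w'
        intro x hx
        rw [e1] at hx
        apply h1 x hx
        have h4 := Y.d_wt m _ hx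
        rw [h.wt_eq_bot (by omega), Submodule.mem_comap, Submodule.mem_bot] at h4
        exact h4
      rw [h3]
      exact Submodule.zero_mem _
    · -- the functional on the coboundaries
      let dd : Y.wt m (t + 1 : ℕ) →ₗ[K] Y.wt (m + 1) ((t : ℕ) - (0 : ℕ)) :=
        Y.d.restrict (fun x hx => by rw [e3]; exact Y.d_wt m _ hx)
      let ψ₀ : Y.wt m (t + 1 : ℕ) →ₗ[K] K :=
        (pair I L (t + 1) 0).flip g' ∘ₗ (Y.wt m (t + 1 : ℕ)).subtype
      have h3 : ψ₀ ∈ LinearMap.range dd.dualMap := by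
        rw [LinearMap.range_dualMap_eq_dualAnnihilator_ker, Submodule.mem_dualAnnihilator]
        intro x hx
        exact h1 x x.2 (congrArg Subtype.val (LinearMap.mem_ker.mp hx))
      obtain ⟨ψ, hψ⟩ := h3
      obtain ⟨u, hu, huψ⟩ := h.perfect (L := L) (a := t) (b := 0) (m := m + 1) (m' := m₁)
        (Or.inr rfl) (by omega) (by omega) ψ
      have h5 : Y.d u ∈ Y.wt (m₁ + 1) ((0 : ℕ) - (t + 1 : ℕ)) := by
        have := Y.d_wt m₁ _ hu
        rwa [show ((0 : ℕ) : ℤ) - (t : ℕ) - 1 = (0 : ℕ) - (t + 1 : ℕ) by push_cast; ring] at this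
      have h4 : g' - Y.d u = 0 := by
        apply h.nondeg' (L := L) (a := t + 1) (b := 0) (m := m) (m' := m₁ + 1) (Or.inr rfl) hm
          (by omega) (Submodule.sub_mem _ hg'w' h5)
        intro x hx
        rw [e1] at hx
        rw [map_sub, sub_eq_zero, h.adj' (wt_low hx (by push_cast; omega))
          (tot_high (Y.wt_le_tot _ _ hu) (by omega))]
        have h6 := huψ (dd ⟨x, hx⟩)
        have h7 := LinearMap.congr_fun hψ ⟨x, hx⟩
        exact h7.symm.trans h6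
      rw [sub_eq_zero.mp h4, Y.B_succ]
      exact ⟨u, Y.wt_le_tot _ _ hu, rfl⟩
  have hgB := hinj g hg hgZ hg'B
  apply hφy
  rw [hgφ y hy]
  rcases m' with _ | m₁
  · rw [Y.B_zero, Submodule.mem_bot] at hgB
    rw [hgB, map_zero]
  · obtain ⟨u, hu, rfl⟩ := Y.exists_comp_B hq hg hgB
    have hdy : Y.d y = 0 := hyZ.2
    rw [h.adj (wt_low hu (by push_cast; omega))
      (tot_high (Y.wt_le_tot _ _ hy) (by omega)), hdy, map_zero, LinearMap.zero_apply]

end Pool.Agent.LibHL10
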