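import Pool.Agent.LibLS20.Pure
import Pool.Agent.LibLS20.Lap85

/-!
Purity over `K`, from the Hodge theory of the strata over the complex numbers.
-/

set_option autoImplicit false

open scoped TensorProduct

namespace Pool.Agent.LibLS20

open Pool.Agent.WM85 Pool.Agent.LibX1 Pool.Agent.LibHL85 Pool.Agent.LibHL10

theorem S_neg {q : ℕ} {K H : Type} [Field K] [AddCommGroup H] [Module K H] (Y : Strata q K H)
    (Λ : Module.End K H) (r : ℤ) (f : ℕ → H) : Y.S (-Λ) r f = -Y.S Λ r f := by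
  funext i
  rw [Pi.neg_apply, Y.S_apply, Y.S_apply]
  simp only [Strata.rho'_apply, Strata.gamma'_apply, LinearMap.neg_apply, map_neg]
  module

variable {q : ℕ} {K : Type} [Field K] [Algebra K ℂ] {H : Type} [AddCommGroup H] [Module K H]
  {Y : Strata q K H} {n : ℕ} {conj : (ℂ ⊗[K] H) →ₛₗ[starRingEnd ℂ] (ℂ ⊗[K] H)}
  {hpq : ℕ → ℕ → ℕ → Submodule ℂ (ℂ ⊗[K] H)} {L : Module.End K H}
  {I : (ℂ ⊗[K] H) →ₗ[ℂ] (ℂ ⊗[K] H) →ₗ[ℂ] ℂ}

/-- `N ^ s` is injective on the part of weight `m + s`. -/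
theorem HodgeTheory.inj_base [CharZero K] [FiniteDimensional K H]
    (h : HodgeTheory Y.baseChange n conj hpq (L.baseChange ℂ) I) (hq : 1 < q) (m : ℕ) (V : Type)
    [AddCommGroup V] [Module K V] (cl : (ℕ → H) →ₗ[K] V) (N F : Module.End K V)
    (hV : Y.Coh m cl N F) (s : ℕ) (hs : 1 ≤ s) (x : V) (hx : x ∈ Y.W m cl s)
    (h0 : (N ^ s) x = 0) : x = 0 := by
  obtain ⟨Λ, hΛ, hlap⟩ := h.exists_laplace (fun Λ' hΛ' m s hs w hw h0 =>
    h.laplace hΛ' hs w hw (by rw [S_neg, map_neg, h0, neg_zero]))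
  rcases m with _ | d
  · obtain ⟨z, ⟨hz, _⟩, rfl⟩ := hx
    have h1 : Y.wt 0 s ≤ ⊥ := Y.wt_le fun i k j h1 h2 h3 => by omega
    have h2 : z = 0 := by simpa using h1 hz
    rw [h2, map_zero]
  · exact hV.inj_of_laplace hq hΛ (fun w hw hw0 => hlap d s hs w hw hw0) x hx h0

/-- Poincaré duality over `K`. -/
theorem HodgeTheory.exists_form [CharZero K] [FiniteDimensional K H]
    (h : HodgeTheory Y.baseChange n conj hpq (L.baseChange ℂ) I) :
    ∃ I' : H →ₗ[K] H →ₗ[K] K, LibHL10.Dual Y n I' := by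
  have hd := h.dual h.I_ne
  apply exists_dual Y n I
  · intro k j k' j' x hx y hy hne
    exact hd.type k j k' j' _ (inc_mem hx) _ (inc_mem hy) hne
  · intro x y
    exact hd.gamma (1 ⊗ₜ x) (1 ⊗ₜ y)
  · intro x y
    exact hd.rho (1 ⊗ₜ x) (1 ⊗ₜ y)
  · exact hd.left

/-- The graded pieces of the monodromy filtration are pure, in all degrees. -/
theorem HodgeTheory.pure_base [FiniteDimensional K H]
    (h : HodgeTheory Y.baseChange n conj hpq (L.baseChange ℂ) I) (hq : 1 < q) {m : ℕ} {V : Type}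
    [AddCommGroup V] [Module K V] {cl : (ℕ → H) →ₗ[K] V} {N F : Module.End K V}
    (hV : Y.Coh m cl N F) {M : ℤ → Submodule K V} (hM : IsMono N M) (s : ℤ) :
    PureGr q (m + s) F M s := by
  have : CharZero K := (algebraMap K ℂ).charZero
  obtain ⟨I', hI'⟩ := h.exists_form
  exact hI'.pure hq (h.inj_base hq) hV hM s

end Pool.Agent.LibLS20
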