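import Pool.Agent.LibHL10.Dual

/-!
A form over the complex numbers with linear properties defined over `K` can be replaced by a form
over `K`.
-/

set_option autoImplicit false

open scoped TensorProduct

namespace Pool.Agent.LibHL10

open Pool.Agent.WM85 Pool.Agent.LibX1 Finset Module

section form

variable {K H : Type} [Field K] [AddCommGroup H] [Module K H] [CharZero K] [Algebra K ℂ]
  [FiniteDimensional K H]

/-- The values of a complex form on `H`. -/
noncomputable def val (I : (ℂ ⊗[K] H) →ₗ[ℂ] (ℂ ⊗[K] H) →ₗ[ℂ] ℂ) : H →ₗ[K] H →ₗ[K] ℂ :=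
  LinearMap.mk₂ K (fun x y => I (1 ⊗ₜ x) (1 ⊗ₜ y))
    (fun x x' y => by rw [TensorProduct.tmul_add, map_add, LinearMap.add_apply])
    (fun c x y => by
      rw [TensorProduct.tmul_smul, ← algebraMap_smul ℂ c ((1 : ℂ) ⊗ₜ[K] x), map_smul,
        LinearMap.smul_apply, algebraMap_smul])
    (fun x y y' => by rw [TensorProduct.tmul_add, map_add])
    (fun c x y => by
      rw [TensorProduct.tmul_smul, ← algebraMap_smul ℂ c ((1 : ℂ) ⊗ₜ[K] y), map_smul,
        algebraMap_smul])

omit [CharZero K] [FiniteDimensional K H] in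
theorem val_apply (I : (ℂ ⊗[K] H) →ₗ[ℂ] (ℂ ⊗[K] H) →ₗ[ℂ] ℂ) (x y : H) :
    val I x y = I (1 ⊗ₜ x) (1 ⊗ₜ y) := rfl

/-- A linear functional on the values of a nondegenerate complex form such that the composition is
nondegenerate. -/
theorem exists_functional (I : (ℂ ⊗[K] H) →ₗ[ℂ] (ℂ ⊗[K] H) →ₗ[ℂ] ℂ)
    (hI : ∀ x, (∀ y, I x y = 0) → x = 0) :
    ∃ c : ℂ →ₗ[K] K, (∀ x, (∀ y, c (val I x y) = 0) → x = 0) ∧
      (∀ y, (∀ x, c (val I x y) = 0) → y = 0) := by
  classical
  let b := finBasis K H
  set d := finrank K H with hd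
  let U : Submodule K ℂ := Submodule.span K (Set.range fun p : Fin d × Fin d => val I (b p.1) (b p.2))
  have hU : FiniteDimensional K U := FiniteDimensional.span_of_finite K (Set.finite_range _)
  let u := finBasis K U
  let v : Fin d → Fin d → U := fun i j =>
    ⟨val I (b i) (b j), Submodule.subset_span ⟨(i, j), rfl⟩⟩
  let P : MvPolynomial (Fin (finrank K U)) K :=
    (Matrix.of fun i j => ∑ a, MvPolynomial.C (u.repr (v i j) a) * MvPolynomial.X a).det
  -- the matrix over the complex numbers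
  have hdet : (Matrix.of fun i j => val I (b i) (b j)).det ≠ 0 := by
    intro h0
    obtain ⟨w, hw0, hw⟩ := Matrix.exists_vecMul_eq_zero_iff.mpr h0
    let x : ℂ ⊗[K] H := ∑ i, w i ⊗ₜ b i
    have hx : x = 0 := by
      apply hI
      intro y
      have h1 : ∀ j, I x (1 ⊗ₜ b j) = 0 := by
        intro j
        have h2 := congrFun hw j
        rw [Matrix.vecMul, dotProduct] at h2
        rw [map_sum, LinearMap.sum_apply]
        rw [Pi.zero_apply] at h2
        rw [← h2]
        apply sum_congr rfl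
        intro i _
        rw [show (w i) ⊗ₜ[K] (b i) = w i • ((1 : ℂ) ⊗ₜ[K] b i) by
          rw [TensorProduct.smul_tmul', smul_eq_mul, mul_one], map_smul, LinearMap.smul_apply,
          smul_eq_mul]
        rfl
      have h3 : (⊤ : Submodule ℂ (ℂ ⊗[K] H)) ≤ LinearMap.ker (I x) := by
        rw [← (b.baseChange ℂ).span_eq, Submodule.span_le]
        rintro _ ⟨j, rfl⟩
        rw [Basis.baseChange_apply]
        exact h1 j
      exact h3 trivial
    apply hw0
    funext i
    have h4 := congrArg (fun z => (b.baseChange ℂ).repr z i) hx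
    have h5 : x = ∑ i, w i • (b.baseChange ℂ) i := by
      apply sum_congr rfl
      intro i _
      rw [Basis.baseChange_apply, TensorProduct.smul_tmul', smul_eq_mul, mul_one]
    rw [h5] at h4
    simpa using h4
  have hP : MvPolynomial.aeval (fun a => (u a : ℂ)) P ≠ 0 := by
    have h1 : MvPolynomial.aeval (fun a => (u a : ℂ)) P =
        (Matrix.of fun i j => val I (b i) (b j)).det := by
      rw [show P = (Matrix.of fun i j =>
        ∑ a, MvPolynomial.C (u.repr (v i j) a) * MvPolynomial.X a).det from rfl, AlgHom.map_det]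
      congr 1
      ext i j
      rw [AlgHom.mapMatrix_apply, Matrix.map_apply, Matrix.of_apply, Matrix.of_apply, map_sum]
      have h2 := congrArg (U.subtype) (u.sum_repr (v i j))
      rw [map_sum] at h2
      have h3 : U.subtype (v i j) = val I (b i) (b j) := rfl
      rw [← h3, ← h2]
      apply sum_congr rfl
      intro a _
      rw [map_mul, MvPolynomial.aeval_X, ← MvPolynomial.algebraMap_eq, AlgHom.commutes, map_smul,
        Algebra.smul_def]
      rfl
    rw [h1]
    exact hdet
  have hP0 : P ≠ 0 := by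
    intro h0
    rw [h0, map_zero] at hP
    exact hP rfl
  obtain ⟨c, hc⟩ : ∃ c : Fin (finrank K U) → K, MvPolynomial.eval c P ≠ 0 := by
    by_contra hcon
    push Not at hcon
    apply hP0
    apply MvPolynomial.funext
    intro c
    rw [hcon c, map_zero]
  -- the functional
  let c₀ : U →ₗ[K] K := u.constr K c
  obtain ⟨c₁, hc₁⟩ := LinearMap.exists_extend c₀
  have hval : ∀ i j, c₁ (val I (b i) (b j)) = ∑ a, u.repr (v i j) a * c a := by
    intro i j
    have h1 : c₁ (val I (b i) (b j)) = c₀ (v i j) := by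
      rw [← hc₁]
      rfl
    rw [h1, Basis.constr_apply_fintype]
    apply sum_congr rfl
    intro a _
    rw [smul_eq_mul]
    rfl
  have hM : (Matrix.of fun i j => c₁ (val I (b i) (b j))).det ≠ 0 := by
    have h1 : MvPolynomial.eval c P = (Matrix.of fun i j => c₁ (val I (b i) (b j))).det := by
      rw [show P = (Matrix.of fun i j =>
        ∑ a, MvPolynomial.C (u.repr (v i j) a) * MvPolynomial.X a).det from rfl, RingHom.map_det]
      congr 1
      ext i j
      rw [RingHom.mapMatrix_apply, Matrix.map_apply, Matrix.of_apply, Matrix.of_apply, map_sum,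
        hval]
      apply sum_congr rfl
      intro a _
      rw [map_mul, MvPolynomial.eval_X, MvPolynomial.eval_C]
    rw [← h1]
    exact hc
  refine ⟨c₁, fun x hx => ?_, fun y hy => ?_⟩
  · have h1 : Matrix.vecMul (fun i => b.repr x i) (Matrix.of fun i j => c₁ (val I (b i) (b j))) = 0 := by
      funext j
      rw [Matrix.vecMul, dotProduct, Pi.zero_apply, ← hx (b j)]
      conv_rhs => rw [← b.sum_repr x]
      rw [map_sum, LinearMap.sum_apply, map_sum]
      apply sum_congr rfl
      intro i _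
      rw [map_smul, LinearMap.smul_apply, map_smul, smul_eq_mul]
      rfl
    have h2 := Matrix.eq_zero_of_vecMul_eq_zero hM h1
    rw [← b.sum_repr x]
    apply sum_eq_zero
    intro i _
    have h3 : b.repr x i = 0 := congrFun h2 i
    rw [h3, zero_smul]
  · have h1 : Matrix.mulVec (Matrix.of fun i j => c₁ (val I (b i) (b j))) (fun i => b.repr y i) = 0 := by
      funext i
      rw [Matrix.mulVec, dotProduct, Pi.zero_apply, ← hy (b i)]
      conv_rhs => rw [← b.sum_repr y]
      rw [map_sum, map_sum]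
      apply sum_congr rfl
      intro j _
      rw [map_smul, map_smul, smul_eq_mul, mul_comm]
      rfl
    have h2 := Matrix.eq_zero_of_mulVec_eq_zero hM h1
    rw [← b.sum_repr y]
    apply sum_eq_zero
    intro i _
    have h3 : b.repr y i = 0 := congrFun h2 i
    rw [h3, zero_smul]

/-- Poincaré duality over the complex numbers gives Poincaré duality over `K`. -/
theorem exists_dual {q : ℕ} (Y : Strata q K H) (n : ℕ)
    (I : (ℂ ⊗[K] H) →ₗ[ℂ] (ℂ ⊗[K] H) →ₗ[ℂ] ℂ)
    (htype : ∀ k j k' j', ∀ x ∈ Y.gr k j, ∀ y ∈ Y.gr k' j', I (1 ⊗ₜ x) (1 ⊗ₜ y) ≠ 0 →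
      k = k' ∧ j + j' + 2 * k = 2 * n)
    (hgamma : ∀ x y : H, I (1 ⊗ₜ Y.gamma x) (1 ⊗ₜ y) = I (1 ⊗ₜ x) (1 ⊗ₜ Y.rho y))
    (hrho : ∀ x y : H, I (1 ⊗ₜ Y.rho x) (1 ⊗ₜ y) = I (1 ⊗ₜ x) (1 ⊗ₜ Y.gamma y))
    (hI : ∀ x, (∀ y, I x y = 0) → x = 0) :
    ∃ I' : H →ₗ[K] H →ₗ[K] K, Dual Y n I' := by
  obtain ⟨c, hc1, hc2⟩ := exists_functional I hI
  refine ⟨(val I).compr₂ c, ?_, ?_, ?_, ?_, ?_⟩
  · intro k j k' j' x hx y hy hne
    apply htype k j k' j' x hx y hy
    intro h0
    apply hne
    rw [LinearMap.compr₂_apply, val_apply, h0, map_zero]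
  · intro x y
    rw [LinearMap.compr₂_apply, LinearMap.compr₂_apply, val_apply, val_apply, hgamma]
  · intro x y
    rw [LinearMap.compr₂_apply, LinearMap.compr₂_apply, val_apply, val_apply, hrho]
  · exact hc1
  · exact hc2

end form

end Pool.Agent.LibHL10
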