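import Pool.Agent.LibHL10.Dual

/-!
Purity of the graded pieces of the monodromy filtration, from the injectivity of `N ^ s` in all
degrees and Poincaré duality for the strata.
-/

set_option autoImplicit false

namespace Pool.Agent.LibHL10

open Pool.Agent.WM85 Pool.Agent.LibX1 Finset Module

variable {q : ℕ} {K H : Type} [Field K] [AddCommGroup H] [Module K H]

/-- The cohomology of degree `m` exists. -/
theorem exists_coh (Y : Strata q K H) (m : ℕ) :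
    ∃ (V : Type) (_ : AddCommGroup V) (_ : Module K V) (cl : (ℕ → H) →ₗ[K] V)
      (N F : Module.End K V), Y.Coh m cl N F := by
  let B' : Submodule K (Y.Z m) := (Y.B m).comap (Y.Z m).subtype
  let sh : Y.Z m →ₗ[K] Y.Z m := (Strata.shift K H).restrict fun _ hx => Y.shift_Z hx
  let fr : Y.Z m →ₗ[K] Y.Z m := Y.Fr.restrict fun _ hx => Y.Fr_Z hx
  obtain ⟨p, hp⟩ := (Y.Z m).subtype.exists_leftInverse_of_injective (Submodule.ker_subtype _)
  have hp' : ∀ z (hz : z ∈ Y.Z m), p z = ⟨z, hz⟩ := fun z hz => LinearMap.congr_fun hp ⟨z, hz⟩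
  refine ⟨Y.Z m ⧸ B', inferInstance, inferInstance, B'.mkQ ∘ₗ p,
    B'.mapQ B' sh fun x hx => Y.shift_B hx, B'.mapQ B' fr fun x hx => Y.Fr_B hx, ?_⟩
  refine ⟨fun v => ?_, fun z hz => ?_, fun z hz => ?_, fun z hz => ?_⟩
  · obtain ⟨⟨z, hz⟩, rfl⟩ := B'.mkQ_surjective v
    exact ⟨z, hz, by rw [LinearMap.comp_apply, hp' z hz]⟩
  · rw [LinearMap.comp_apply, hp' z hz, Submodule.mkQ_apply, Submodule.Quotient.mk_eq_zero]
    exact Iff.rfl
  · rw [LinearMap.comp_apply, hp' z hz, LinearMap.comp_apply, hp' _ (Y.shift_Z hz)]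
    rfl
  · rw [LinearMap.comp_apply, hp' z hz, LinearMap.comp_apply, hp' _ (Y.Fr_Z hz)]
    rfl

variable {Y : Strata q K H} {n : ℕ} {I : H →ₗ[K] H →ₗ[K] K}

/-- Injectivity of `N ^ s` in all degrees and Poincaré duality give surjectivity. -/
theorem Dual.coh_surj [CharZero K] [FiniteDimensional K H] (h : Dual Y n I) (hq : 1 < q)
    (hinj : ∀ (m : ℕ) (V : Type) [AddCommGroup V] [Module K V] (cl : (ℕ → H) →ₗ[K] V)
      (N F : Module.End K V), Y.Coh m cl N F → ∀ s : ℕ, 1 ≤ s → ∀ x ∈ Y.W m cl s,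
      (N ^ s) x = 0 → x = 0)
    {m : ℕ} {V : Type} [AddCommGroup V] [Module K V] {cl : (ℕ → H) →ₗ[K] V}
    {N F : Module.End K V} (hV : Y.Coh m cl N F) {s : ℕ} (hs : 1 ≤ s) (y : V)
    (hy : y ∈ Y.W m cl (-s)) : ∃ x ∈ Y.W m cl s, (N ^ s) x = y := by
  obtain ⟨y, ⟨hy, hyZ⟩, rfl⟩ := hy
  by_cases hm : 2 * n < m
  · rw [SetLike.mem_coe, h.wt_eq_bot hm, Submodule.mem_bot] at hy
    exact ⟨0, Submodule.zero_mem _, by rw [hy, map_zero, map_zero]⟩
  · obtain ⟨m', hm'⟩ : ∃ m', m + m' = 2 * n := ⟨2 * n - m, by omega⟩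
    obtain ⟨V', i1, i2, cl', N', F', hV'⟩ := exists_coh Y m'
    obtain ⟨x, ⟨hx, hxZ⟩, hxB⟩ := h.surj hq hm' hs (y := y) (by
      intro g hg hgZ hgB
      rw [← hV'.ker g hgZ]
      apply hinj m' V' cl' N' F' hV' s hs _ ⟨g, ⟨hg, hgZ⟩, rfl⟩
      rw [hV'.N_pow_cl s hgZ, hV'.ker _ (Y.shift_pow_Z s hgZ)]
      exact hgB) hy hyZ
    refine ⟨cl x, ⟨x, ⟨hx, hxZ⟩, rfl⟩, ?_⟩
    rw [hV.N_pow_cl s hxZ]
    rw [← hV.ker _ (Y.B_le_Z m hxB), map_sub, sub_eq_zero] at hxB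
    exact hxB.symm

/-- Injectivity of `N ^ s` in all degrees and Poincaré duality give purity. -/
theorem Dual.pure [CharZero K] [FiniteDimensional K H] (h : Dual Y n I) (hq : 1 < q)
    (hinj : ∀ (m : ℕ) (V : Type) [AddCommGroup V] [Module K V] (cl : (ℕ → H) →ₗ[K] V)
      (N F : Module.End K V), Y.Coh m cl N F → ∀ s : ℕ, 1 ≤ s → ∀ x ∈ Y.W m cl s,
      (N ^ s) x = 0 → x = 0)
    {m : ℕ} {V : Type} [AddCommGroup V] [Module K V] {cl : (ℕ → H) →ₗ[K] V}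
    {N F : Module.End K V} (hV : Y.Coh m cl N F) {M : ℤ → Submodule K V} (hM : IsMono N M)
    (s : ℤ) : PureGr q (m + s) F M s :=
  have := hV.finite
  strings_pure hq (hV.F_injective hq) hV.N_F hM (hV.W_internal hq) hV.N_W (hV.W_pure hq) 1
    (fun t ht => hinj m V cl N F hV t ht) (fun t ht => h.coh_surj hq hinj hV ht) s
    (by have := abs_nonneg s; push_cast; omega)

end Pool.Agent.LibHL10
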