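import Pool.Agent.LibLS20.Lef85
import Pool.Agent.LibHL10.Pure
import Pool.Agent.LibHL10.Form

/-!
The intersection form of the Hodge theory of the strata gives Poincaré duality.
-/

set_option autoImplicit false

open scoped TensorProduct

namespace Pool.Agent.LibLS20

open Pool.Agent.LibX1 Pool.Agent.LibHL10

namespace HodgeTheory

variable {q : ℕ} {H : Type} [AddCommGroup H] [Module ℂ H] {Y : Strata q ℂ H}
    {n : ℕ} {conj : H →ₛₗ[starRingEnd ℂ] H} {hpq : ℕ → ℕ → ℕ → Submodule ℂ H}
    {L : Module.End ℂ H} {I : H →ₗ[ℂ] H →ₗ[ℂ] ℂ}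

theorem I_degree (h : HodgeTheory Y n conj hpq L I) (k j k' j' : ℕ) (x : H) (hx : x ∈ Y.gr k j)
    (y : H) (hy : y ∈ Y.gr k' j') (hxy : I x y ≠ 0) : k = k' ∧ j + j' + 2 * k = 2 * n := by
  by_contra hcon
  apply hxy
  have h1 : Y.gr k j ≤ LinearMap.ker (I.flip y) := by
    apply h.gr_le
    intro u v huv x hx
    rw [LinearMap.mem_ker, LinearMap.flip_apply, ← LinearMap.mem_ker]
    have h2 : Y.gr k' j' ≤ LinearMap.ker (I x) := by
      apply h.gr_le
      intro u' v' huv' y hy
      rw [LinearMap.mem_ker]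
      by_contra h3
      obtain ⟨h4, h5, h6⟩ := h.I_type _ _ _ _ _ _ x hx y hy h3
      exact hcon ⟨h4, by omega⟩
    exact h2 hy
  exact h1 hx

theorem I_rho (h : HodgeTheory Y n conj hpq L I) (x y : H) :
    I (Y.rho x) y = I x (Y.gamma y) := by
  have h1 : ∀ k j, ∀ x ∈ Y.gr k j, ∀ y : H, I (Y.rho x) y = I x (Y.gamma y) := by
    intro k j x hx
    have h2 : I (Y.rho x) = I x ∘ₗ Y.gamma := by
      apply LibHL85.ext_glue Y.internal
      intro k' j' y hy
      rw [LinearMap.comp_apply, h.I_symm _ _ _ _ _ (Y.rho_mem k j x hx) y hy, ← h.I_gamma]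
      rcases k' with _ | k'
      · rw [h.gamma_zero _ _ hy, map_zero, map_zero, LinearMap.zero_apply, mul_zero]
      · rw [h.I_symm _ _ _ _ _ (Y.gamma_mem k' j' y hy) x hx, ← mul_assoc, ← pow_add,
          show j * j' + (j' + 2) * j = 2 * (j * j' + j) by ring, pow_mul, neg_one_sq, one_pow,
          one_mul]
    intro y
    rw [h2]
    rfl
  have h3 : I ∘ₗ Y.rho = (LinearMap.lcomp ℂ ℂ Y.gamma) ∘ₗ I := by
    apply LibHL85.ext_glue Y.internal
    intro k j x hx
    apply LinearMap.ext
    intro y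
    exact h1 k j x hx y
  exact LinearMap.congr_fun (LinearMap.congr_fun h3 x) y

theorem I_eq_zero (h : HodgeTheory Y n conj hpq L I) {y : H} (hy : ∀ x, I x y = 0) (x : H) :
    I y x = 0 := by
  -- the components of `y`
  classical
  obtain ⟨p, hp⟩ := exists_projs Y.internal
  have h1 : ∀ t : ℕ × ℕ, ∀ x, I x (p t y) = 0 := by
    intro t x
    obtain ⟨s, hs⟩ := hp.sum x
    rw [hs, map_sum, LinearMap.sum_apply]
    apply Finset.sum_eq_zero
    intro t' _
    by_cases ht : t'.1 = t.1 ∧ t'.2 + t.2 + 2 * t'.1 = 2 * n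
    · obtain ⟨s', hs'⟩ := hp.sum y
      have h2 := hy (p t' x)
      rw [hs', map_sum] at h2
      by_cases hts : t ∈ s'
      · rw [Finset.sum_eq_single t] at h2
        · exact h2
        · intro t'' _ hne
          by_contra h3
          obtain ⟨h4, h5⟩ := h.I_degree _ _ _ _ _ (hp.mem t' x) _ (hp.mem t'' y) h3
          apply hne
          ext <;> omega
        · intro h3
          exact absurd hts h3
      · have h3 : p t y = 0 := by
          rw [hs', map_sum]
          apply Finset.sum_eq_zero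
          intro t'' ht''
          apply hp.ne t t'' _ _ (hp.mem t'' y)
          rintro rfl
          exact hts ht''
        rw [h3, map_zero]
    · by_contra h3
      exact ht (h.I_degree _ _ _ _ _ (hp.mem t' x) _ (hp.mem t y) h3)
  obtain ⟨s, hs⟩ := hp.sum y
  rw [hs, map_sum, LinearMap.sum_apply]
  apply Finset.sum_eq_zero
  intro t _
  obtain ⟨s', hs'⟩ := hp.sum x
  rw [hs', map_sum]
  apply Finset.sum_eq_zero
  intro t' _
  rw [h.I_symm _ _ _ _ _ (hp.mem t y) _ (hp.mem t' x), h1, mul_zero]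

/-- Poincaré duality, if the intersection form is nondegenerate. -/
theorem dual (h : HodgeTheory Y n conj hpq L I) (hI : ∀ x, x ≠ 0 → ∃ y, I x y ≠ 0) :
    LibHL10.Dual Y n I where
  type := h.I_degree
  gamma := h.I_gamma
  rho := h.I_rho
  left := by
    intro x hx
    by_contra h0
    obtain ⟨y, hy⟩ := hI x h0
    exact hy (hx y)
  right := by
    intro y hy
    by_contra h0
    obtain ⟨x, hx⟩ := hI y h0
    exact hx (h.I_eq_zero hy x)

end HodgeTheory

end Pool.Agent.LibLS20
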